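import Pool.Agent.D0H58.OR.DPrime

/-! Many prime ideals over large primes are stable under all derivations. -/

set_option autoImplicit false
set_option linter.unusedSectionVars false

open Polynomial

namespace Pool.Agent.D0H58.AB

open Pool.Agent.D0H58.OR (split_low stable_of_index norm_int diff_prime)

/-- a prime ideal over the prime ideal `(p)` of the polynomial ring is stable under derivations -/
lemma stable_of_over {R : Type*} [CommRing R] {s : ℕ} (φ : MvPolynomial (Fin s) ℤ →+* R) (N d : ℕ)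
    (hnorm : ∀ x : R, ∃ a : ℕ, ∃ Q : (MvPolynomial (Fin s) ℤ)[X], Q.Monic ∧
        Q.natDegree = d ∧ Q.eval₂ φ ((N : R) ^ a * x) = 0) (p : ℕ) (hpp : p.Prime) (hdp : d < p)
    (P : Ideal R) (hP : P.IsPrime)
    (hPq : ∀ y, φ y ∈ P ↔ y ∈ Ideal.span {(MvPolynomial.C (p : ℤ) : MvPolynomial (Fin s) ℤ)})
    (hNq : (N : MvPolynomial (Fin s) ℤ) ∉ Ideal.span {(MvPolynomial.C (p : ℤ) : MvPolynomial (Fin s) ℤ)})
    (D : Derivation ℤ R R) (x : R) (hx : x ∈ P) : D x ∈ P := by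
  classical
  obtain ⟨q, hqdef⟩ : ∃ q : Ideal (MvPolynomial (Fin s) ℤ), q = Ideal.span {MvPolynomial.C (p : ℤ)} :=
    ⟨_, rfl⟩
  rw [← hqdef] at hNq
  have hPq' : ∀ y, φ y ∈ P ↔ y ∈ q := by rw [hqdef]; exact hPq
  have hq : q ≠ ⊤ := by
    intro h
    apply hP.ne_top
    rw [Ideal.eq_top_iff_one, ← map_one φ, hPq', h]
    trivial
  have hCp : (MvPolynomial.C (p : ℤ) : MvPolynomial (Fin s) ℤ) = (p : MvPolynomial (Fin s) ℤ) := by
    simp
  have hφp : φ (MvPolynomial.C (p : ℤ)) = (p : R) := by rw [hCp, map_natCast]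
  have hqI : ∀ x ∈ q, φ x ∈ Ideal.span {(p : R)} := by
    intro x hx
    rw [hqdef] at hx
    obtain ⟨y, rfl⟩ := Ideal.mem_span_singleton'.1 hx
    rw [map_mul, hφp]
    exact Ideal.mul_mem_left _ _ (Ideal.subset_span rfl)
  have hnot : ∀ y, y ∉ q → φ y ∉ P := fun y hy h => hy ((hPq' y).1 h)
  have hpP' : (p : R) ∈ P := by
    rw [← hφp, hPq', hqdef]
    exact Ideal.subset_span rfl
  refine stable_of_index p d hpp hdp P hP hpP' (fun x hx => ?_) D x hx
  obtain ⟨a, Q, hQ1, hQ2, hQ3⟩ := hnorm x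
  have hex : ∃ i, Q.coeff i ∉ q := by
    refine ⟨Q.natDegree, ?_⟩
    have : Q.coeff Q.natDegree = 1 := hQ1
    rw [this]
    exact fun h => hq ((Ideal.eq_top_iff_one q).2 h)
  have hv : Nat.find hex ≤ d := by
    apply Nat.find_min'
    rw [← hQ2]
    have : Q.coeff Q.natDegree = 1 := hQ1
    rw [this]
    exact fun h => hq ((Ideal.eq_top_iff_one q).2 h)
  obtain ⟨v, hvdef⟩ : ∃ v, v = Nat.find hex := ⟨_, rfl⟩
  rw [← hvdef] at hv
  have hvs : Q.coeff v ∉ q := by rw [hvdef]; exact Nat.find_spec hex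
  obtain ⟨H, hH1, hH2⟩ := split_low φ q (Ideal.span {(p : R)}) hqI ((N : R) ^ a * x) Q v
    (fun i hi => by
      rw [hvdef] at hi
      have := Nat.find_min hex hi
      push Not at this
      exact this)
  rw [hQ3, zero_sub] at hH2
  have hw : H.eval₂ φ ((N : R) ^ a * x) ∉ P := by
    intro h
    have e1 : H.eval₂ φ ((N : R) ^ a * x) = H.divX.eval₂ φ ((N : R) ^ a * x) * ((N : R) ^ a * x) +
        φ (H.coeff 0) := by
      conv_lhs => rw [← divX_mul_X_add H]
      rw [eval₂_add, eval₂_mul_X, eval₂_C]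
    rw [e1] at h
    have h1 : H.divX.eval₂ φ ((N : R) ^ a * x) * ((N : R) ^ a * x) ∈ P :=
      P.mul_mem_left _ (P.mul_mem_left _ hx)
    have h2 := (P.add_mem_iff_right h1).1 h
    refine hnot _ ?_ h2
    rw [hH1, zero_add]; exact hvs
  have hNP : (N : R) ∉ P := by
    have := hnot _ hNq
    rwa [map_natCast] at this
  refine ⟨v, hv, H.eval₂ φ ((N : R) ^ a * x) * (N : R) ^ (a * v), ?_, ?_⟩
  · intro h
    rcases hP.mem_or_mem h with h1 | h1
    · exact hw h1
    · exact hNP (hP.mem_of_pow_mem _ h1)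
  · have e1 : H.eval₂ φ ((N : R) ^ a * x) * (N : R) ^ (a * v) * x ^ v =
        -(-(((N : R) ^ a * x) ^ v * H.eval₂ φ ((N : R) ^ a * x))) := by
      rw [mul_pow, ← pow_mul]; ring
    rw [e1]
    exact Ideal.neg_mem_iff _ |>.2 hH2

/-- minimal prime ideals over a prime of an integrally closed domain, in an integral extension -/
lemma minimal_over {B S : Type*} [CommRing B] [CommRing S] [Algebra B S] [IsDomain S]
    [FaithfulSMul B S] [Algebra.IsIntegral B S] [IsIntegrallyClosed B] (q : Ideal B) [hq : q.IsPrime]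
    (P : Ideal S) (hP : P ∈ (q.map (algebraMap B S)).minimalPrimes) :
    P.comap (algebraMap B S) = q := by
  have hPp : P.IsPrime := hP.1.1
  have hle : q ≤ P.comap (algebraMap B S) := Ideal.map_le_iff_le_comap.1 hP.1.2
  obtain ⟨Q, hQP, hQ, hQq⟩ := Ideal.exists_ideal_le_liesOver_of_le (R := B) (S := S)
    (p := q) (q := P.comap (algebraMap B S)) P hle
  have h1 : q = Q.under B := hQq.over
  have h2 : q.map (algebraMap B S) ≤ Q := by
    rw [Ideal.map_le_iff_le_comap]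
    exact h1.le
  have h3 : P ≤ Q := hP.2 ⟨hQ, h2⟩ hQP
  have h4 : P = Q := le_antisymm h3 hQP
  rw [h4]
  exact h1.symm

/-- The key lemma: elements outside of `(p)` are not zero divisors modulo the radical of `p`. -/
lemma key_radical {R : Type*} [CommRing R] [IsDomain R] {s : ℕ}
    (φ : MvPolynomial (Fin s) ℤ →+* R) (hφ : Function.Injective φ) (N d : ℕ)
    (hnorm : ∀ x : R, ∃ a : ℕ, ∃ Q : (MvPolynomial (Fin s) ℤ)[X], Q.Monic ∧
        Q.natDegree = d ∧ Q.eval₂ φ ((N : R) ^ a * x) = 0) (p : ℕ) (hpp : p.Prime)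
    (hNp : Nat.Coprime N p) (z w : R) (y : MvPolynomial (Fin s) ℤ)
    (hy : y ∉ Ideal.span {(MvPolynomial.C (p : ℤ) : MvPolynomial (Fin s) ℤ)})
    (h : z * φ y = p * w) : z ∈ (Ideal.span {(p : R)}).radical := by
  classical
  letI : Algebra (MvPolynomial (Fin s) ℤ) R := φ.toAlgebra
  have halg : ∀ x, algebraMap (MvPolynomial (Fin s) ℤ) R x = φ x := fun _ => rfl
  obtain ⟨S, hS⟩ : ∃ S : Subalgebra (MvPolynomial (Fin s) ℤ) R,
    S = integralClosure (MvPolynomial (Fin s) ℤ) R := ⟨_, rfl⟩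
  have hint : Algebra.IsIntegral (MvPolynomial (Fin s) ℤ) S := by
    rw [hS]; infer_instance
  have hfaith : FaithfulSMul (MvPolynomial (Fin s) ℤ) S := by
    rw [faithfulSMul_iff_algebraMap_injective]
    intro x x' hxx
    apply hφ
    have := congrArg (Subtype.val) hxx
    exact this
  have hlift : ∀ x : R, ∃ a : ℕ, (N : R) ^ a * x ∈ S := by
    intro x
    obtain ⟨a, Q, hQ1, -, hQ3⟩ := hnorm x
    refine ⟨a, ?_⟩
    rw [hS, mem_integralClosure_iff]
    exact ⟨Q, hQ1, hQ3⟩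
  obtain ⟨a1, ha1⟩ := hlift z
  obtain ⟨a2, ha2⟩ := hlift w
  have hNS : (N : R) ∈ S := natCast_mem S N
  obtain ⟨z', hz'⟩ : ∃ z' : S, (z' : R) = (N : R) ^ (a1 + a2) * z :=
    ⟨⟨(N : R) ^ a2 * ((N : R) ^ a1 * z), S.mul_mem (S.pow_mem hNS _) ha1⟩, by
      change (N : R) ^ a2 * ((N : R) ^ a1 * z) = _
      ring⟩
  obtain ⟨w', hw'⟩ : ∃ w' : S, (w' : R) = (N : R) ^ (a1 + a2) * w :=
    ⟨⟨(N : R) ^ a1 * ((N : R) ^ a2 * w), S.mul_mem (S.pow_mem hNS _) ha2⟩, by
      change (N : R) ^ a1 * ((N : R) ^ a2 * w) = _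
      ring⟩
  obtain ⟨q, hq⟩ : ∃ q : Ideal (MvPolynomial (Fin s) ℤ), q = Ideal.span {MvPolynomial.C (p : ℤ)} :=
    ⟨_, rfl⟩
  have hpr : Prime (MvPolynomial.C (p : ℤ) : MvPolynomial (Fin s) ℤ) :=
    (MvPolynomial.prime_C_iff _).2 (Nat.prime_iff_prime_int.1 hpp)
  have hqp : q.IsPrime := by rw [hq]; exact (Ideal.span_singleton_prime hpr.ne_zero).2 hpr
  have hCp : (MvPolynomial.C (p : ℤ) : MvPolynomial (Fin s) ℤ) = (p : MvPolynomial (Fin s) ℤ) := by
    simp
  have heq : z' * algebraMap (MvPolynomial (Fin s) ℤ) S y =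
      algebraMap (MvPolynomial (Fin s) ℤ) S (MvPolynomial.C (p : ℤ)) * w' := by
    apply Subtype.ext
    change (z' : R) * φ y = φ (MvPolynomial.C (p : ℤ)) * (w' : R)
    rw [hz', hw', hCp, map_natCast, mul_assoc, h]
    ring
  have hz1 : z' ∈ (q.map (algebraMap (MvPolynomial (Fin s) ℤ) S)).radical := by
    rw [← Ideal.sInf_minimalPrimes, Ideal.mem_sInf]
    intro P hP
    have h1 := minimal_over q P hP
    have hPp : P.IsPrime := hP.1.1
    have h2 : z' * algebraMap (MvPolynomial (Fin s) ℤ) S y ∈ P := by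
      rw [heq]
      apply P.mul_mem_right
      have : (MvPolynomial.C (p : ℤ) : MvPolynomial (Fin s) ℤ) ∈
          P.comap (algebraMap (MvPolynomial (Fin s) ℤ) S) := by
        rw [h1, hq]; exact Ideal.subset_span rfl
      exact this
    rcases hPp.mem_or_mem h2 with h3 | h3
    · exact h3
    · exfalso
      apply hy
      have : y ∈ P.comap (algebraMap (MvPolynomial (Fin s) ℤ) S) := h3
      rwa [h1, hq] at this
  obtain ⟨j, hj⟩ := hz1
  rw [hq, Ideal.map_span, Set.image_singleton] at hj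
  obtain ⟨t, ht⟩ := Ideal.mem_span_singleton'.1 hj
  have h5 : (N : R) ^ ((a1 + a2) * j) * z ^ j = (t : R) * p := by
    have := congrArg (Subtype.val) ht
    have e1 : ((t * algebraMap (MvPolynomial (Fin s) ℤ) S (MvPolynomial.C (p : ℤ)) : S) : R) =
        (t : R) * φ (MvPolynomial.C (p : ℤ)) := rfl
    have e2 : ((z' ^ j : S) : R) = (z' : R) ^ j := rfl
    rw [e1, e2, hz', hCp, map_natCast] at this
    rw [this, mul_pow, ← pow_mul]
  have hcop : IsCoprime ((N : ℤ) ^ ((a1 + a2) * j)) (p : ℤ) :=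
    (Nat.isCoprime_iff_coprime.2 hNp).pow_left
  obtain ⟨α, β, hαβ⟩ := hcop
  have e3 : (α : R) * (N : R) ^ ((a1 + a2) * j) + (β : R) * (p : R) = 1 := by
    have := congrArg (Int.cast : ℤ → R) hαβ
    push_cast at this ⊢
    exact this
  refine ⟨j, Ideal.mem_span_singleton'.2 ⟨(α : R) * t + (β : R) * z ^ j, ?_⟩⟩
  linear_combination (α : R) * (-h5) + z ^ j * e3

/-- the data of the normalization -/
theorem many_primes (R : Type*) [CommRing R] [IsDomain R] [CharZero R] [Algebra.FiniteType ℤ R] :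
    ∃ M : ℕ, ∀ p : ℕ, M ≤ p → p.Prime → ∀ a : R, a ∉ (Ideal.span {(p : R)}).radical →
      ∃ P : Ideal R, P.IsPrime ∧ (p : R) ∈ P ∧ a ∉ P ∧
        ∀ D : Derivation ℤ R R, ∀ x ∈ P, D x ∈ P := by
  classical
  obtain ⟨s, φ, hφ, N, d, hN, hnorm⟩ := norm_int R
  refine ⟨N + d + 1, fun p hp hpp a ha => ?_⟩
  have hNp : Nat.Coprime N p := by
    rw [Nat.coprime_comm, Nat.Prime.coprime_iff_not_dvd hpp]
    intro hd
    have := Nat.le_of_dvd (Nat.pos_of_ne_zero hN) hd
    omega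
  have hpr : Prime (MvPolynomial.C (p : ℤ) : MvPolynomial (Fin s) ℤ) :=
    (MvPolynomial.prime_C_iff _).2 (Nat.prime_iff_prime_int.1 hpp)
  obtain ⟨q, hqdef⟩ : ∃ q : Ideal (MvPolynomial (Fin s) ℤ), q = Ideal.span {MvPolynomial.C (p : ℤ)} :=
    ⟨_, rfl⟩
  have hq : q.IsPrime := by rw [hqdef]; exact (Ideal.span_singleton_prime hpr.ne_zero).2 hpr
  have hCp : (MvPolynomial.C (p : ℤ) : MvPolynomial (Fin s) ℤ) = (p : MvPolynomial (Fin s) ℤ) := by
    simp
  have hφp : φ (MvPolynomial.C (p : ℤ)) = (p : R) := by rw [hCp, map_natCast]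
  have hNq : (N : MvPolynomial (Fin s) ℤ) ∉ q := by
    rw [hqdef, Ideal.mem_span_singleton]
    have e1 : (N : MvPolynomial (Fin s) ℤ) = MvPolynomial.C (N : ℤ) := by simp
    rw [e1, MvPolynomial.C_dvd_iff_dvd_coeff]
    intro h
    have h1 := h 0
    rw [MvPolynomial.coeff_zero_C] at h1
    have h2 : p ∣ N := by exact_mod_cast h1
    have := Nat.le_of_dvd (Nat.pos_of_ne_zero hN) h2
    omega
  obtain ⟨W, hW⟩ : ∃ W : Submonoid R, W = Submonoid.powers a ⊔ q.primeCompl.map φ := ⟨_, rfl⟩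
  have hdisj : Disjoint ((Ideal.span {(p : R)} : Ideal R) : Set R) (W : Set R) := by
    rw [Set.disjoint_left]
    rintro x hx hxW
    rw [hW, SetLike.mem_coe, Submonoid.mem_sup] at hxW
    obtain ⟨_, ⟨i, rfl⟩, _, ⟨y, hy, rfl⟩, hxy⟩ := hxW
    obtain ⟨w, hw⟩ := Ideal.mem_span_singleton'.1 hx
    have h1 := key_radical φ hφ N d hnorm p hpp hNp (a ^ i) w y (by rw [← hqdef]; exact hy) (by
      change a ^ i * φ y = x at hxy
      rw [hxy, ← hw, mul_comm])
    exact ha (Ideal.mem_radical_of_pow_mem h1)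
  obtain ⟨P, hP, hpP, hdis⟩ := Ideal.exists_le_prime_disjoint _ _ hdisj
  have hnot : ∀ y, y ∉ q → φ y ∉ P := by
    intro y hy h
    refine Set.disjoint_left.1 hdis h ?_
    rw [hW]
    exact (le_sup_right : q.primeCompl.map φ ≤ _) ⟨y, hy, rfl⟩
  have hpP' : (p : R) ∈ P := hpP (Ideal.subset_span rfl)
  refine ⟨P, hP, hpP', ?_, ?_⟩
  · intro h
    refine Set.disjoint_left.1 hdis h ?_
    rw [hW]
    exact (le_sup_left : Submonoid.powers a ≤ _) (Submonoid.mem_powers a)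
  · refine stable_of_over φ N d hnorm p hpp (by omega) P hP (fun y => ?_) (by rw [← hqdef]; exact hNq)
    rw [← hqdef]
    constructor
    · intro h
      by_contra hy
      exact hnot y hy h
    · intro h
      rw [hqdef] at h
      obtain ⟨x, rfl⟩ := Ideal.mem_span_singleton'.1 h
      rw [map_mul, hφp]
      exact P.mul_mem_left _ hpP'

end Pool.Agent.D0H58.AB
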