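import Pool.Agent.D0H58.AB.Loc

/-! Dense general position of horizontal subspaces and steps of the Hodge filtration. -/

set_option autoImplicit false
set_option linter.unusedSectionVars false

universe u

open MvPolynomial

namespace Pool.Agent.D0H58.AB

open Pool.Agent.D0H58.OR (frac_closure stable_ring restrictD exists_hom push_quot charP_of_zero
  diff_prime)

/-- a map with the properties of a derivation -/
lemma exists_derivation {A K : Type*} [CommRing A] [CommRing K] [Algebra A K] (δ : A → K)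
    (h1 : ∀ x y, δ (x + y) = δ x + δ y)
    (h2 : ∀ x y, δ (x * y) = algebraMap A K x * δ y + algebraMap A K y * δ x) :
    ∃ D : Derivation ℤ A K, ∀ x, D x = δ x := by
  have h0 : δ 0 = 0 := by
    have := h1 0 0
    rw [add_zero] at this
    exact left_eq_add.1 this
  let F : A →+ K :=
    { toFun := δ
      map_zero' := h0
      map_add' := h1 }
  refine ⟨Derivation.mk' F.toIntLinearMap ?_, fun x => rfl⟩
  intro x y
  change δ (x * y) = x • δ y + y • δ x
  rw [h2, Algebra.smul_def, Algebra.smul_def]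

/-- Dense general position. -/
theorem main {k : Type u} {ι : Type*} [Field k] [IsAlgClosed k] [CharZero k] [Fintype ι]
    (A : Subalgebra ℤ k) (hA : A.FG) (Pr : Set ℕ) (n r s : ι → ℕ) (L : ι → Type*)
    [∀ i, Fintype (L i)] (dA : ∀ i, Dat A (L i) (n i) (r i)) (U : ∀ i, ℕ → Set (Fin (n i) → A))
    (Φ : ∀ i, Set (MvPolynomial (Fin (s i) × Fin (n i)) A))
    (hcod : ∀ i, ∀ p ∈ Pr, ∀ (K : Type u) [Field K] [CharP K p] (f : A →+* K),
      Module.finrank K (img f (U i p)) + s i ≤ n i)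
    (hhor : ∀ i, ∀ p ∈ Pr, ∀ (K : Type u) [Field K] [CharP K p] (f : A →+* K) (δ : A → K),
      (∀ x y, δ (x + y) = δ x + δ y) → (∀ x y, δ (x * y) = f x * δ y + f y * δ x) →
      ∀ v ∈ U i p, (fun a => δ (v a) + ∑ b, (∑ l, δ ((dA i).b l) * f ((dA i).C l a b)) * f (v b)) ∈
        img f (U i p))
    (hrel : ∀ i, ∀ p ∈ Pr, ∀ (K : Type u) [Field K] [CharP K p] (f : A →+* K),
      ∀ μ : Fin (s i) → Fin (n i) → K, LinearIndependent K μ →
      (∀ j, ∀ v ∈ U i p, ∑ t, μ j t * f (v t) = 0) →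
      ∀ P ∈ Φ i, eval₂ f (fun x => μ x.1 x.2) P = 0)
    (hbig : ∀ i, Big ((dA i).map (algebraMap A k)) (s i) (map (algebraMap A k) '' Φ i))
    (c : A) (hc : c ≠ 0) :
    ∃ N : ℕ, ∀ p ∈ Pr, N ≤ p → p.Prime → ∃ M : Ideal A, M.IsMaximal ∧ (p : A) ∈ M ∧ c ∉ M ∧
      ∀ i, ∀ (κ : Type u) [Field κ] (g : A →+* κ), RingHom.ker g = M →
        ∀ e : Fin (r i) → κ, (fun t => ∑ j, e j * g ((dA i).ω j t)) ∈ img g (U i p) → e = 0 := by
  classical
  obtain ⟨T, hTA⟩ := hA
  obtain ⟨G, hG1, hG2⟩ := frac_closure T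
  have hcharE : CharZero (Subfield.closure (T : Set k)) :=
    RingHom.charZero (Subfield.closure (T : Set k)).subtype
  -- elements of `A`
  have hAl : ∀ x ∈ A, ∃ y : Subfield.closure (T : Set k), y ∈ Algebra.adjoin ℤ
      (G : Set (Subfield.closure (T : Set k))) ∧ (y : k) = x := by
    intro x hx
    rw [← hTA] at hx
    induction hx using Algebra.adjoin_induction with
    | mem x hx =>
      obtain ⟨y, hy, hyx⟩ := hG1 x hx
      exact ⟨y, Algebra.subset_adjoin hy, hyx⟩
    | algebraMap z =>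
      refine ⟨(z : Subfield.closure (T : Set k)), ?_, by simp⟩
      simp
    | add x y _ _ hx hy =>
      obtain ⟨x', h1, h2⟩ := hx
      obtain ⟨y', h3, h4⟩ := hy
      exact ⟨x' + y', Subalgebra.add_mem _ h1 h3, by push_cast; rw [h2, h4]⟩
    | mul x y _ _ hx hy =>
      obtain ⟨x', h1, h2⟩ := hx
      obtain ⟨y', h3, h4⟩ := hy
      exact ⟨x' * y', Subalgebra.mul_mem _ h1 h3, by push_cast; rw [h2, h4]⟩
  obtain ⟨iE, hiE⟩ := exists_hom (algebraMap A k) (algebraMap (Subfield.closure (T : Set k)) k)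
    (algebraMap (Subfield.closure (T : Set k)) k).injective (fun x => by
      obtain ⟨y, hy1, hy2⟩ := hAl x x.2
      exact ⟨y, hy2⟩)
  have hiE' : (algebraMap (Subfield.closure (T : Set k)) k).comp iE = algebraMap A k :=
    RingHom.ext hiE
  obtain ⟨cE, hcE1, hcE2⟩ := hAl c c.2
  have hcE0 : cE ≠ 0 := by
    rintro rfl
    apply hc
    apply Subtype.ext
    rw [← hcE2]
    simp
  -- the local statements
  have hbig' : ∀ i, Big (((dA i).map iE).map (algebraMap (Subfield.closure (T : Set k)) k)) (s i)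
      (map (algebraMap (Subfield.closure (T : Set k)) k) '' (map iE '' Φ i)) := by
    intro i
    have h1 : ((dA i).map iE).map (algebraMap (Subfield.closure (T : Set k)) k) =
        (dA i).map (algebraMap A k) := by
      rw [← hiE']; rfl
    have h2 : map (algebraMap (Subfield.closure (T : Set k)) k) '' (map iE '' Φ i) =
        map (algebraMap A k) '' Φ i := by
      rw [Set.image_image]
      apply Set.image_congr
      intro P _
      rw [map_map, hiE']
    rw [h1, h2]
    exact hbig i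
  choose CC ΔΔ hCΔ using fun i => loc (k := k) iE (dA i) (Φ i) (hbig' i)
  -- the stable ring
  obtain ⟨Δ, hΔ⟩ : ∃ Δ : Finset (Derivation ℤ (Subfield.closure (T : Set k))
      (Subfield.closure (T : Set k))), Δ = Finset.univ.biUnion fun i => ΔΔ i := ⟨_, rfl⟩
  obtain ⟨C0, hC0⟩ : ∃ C0 : Finset (Subfield.closure (T : Set k)), C0 = insert cE⁻¹
      (Finset.univ.biUnion fun i => CC i) := ⟨_, rfl⟩
  obtain ⟨R, hRfg, hRG, hRC, hRD⟩ := stable_ring G C0 hG2 Δ
  have hcR : cE⁻¹ ∈ R := hRC _ (by rw [hC0]; exact Finset.mem_insert_self _ _)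
  have hCCR : ∀ i, ∀ x ∈ CC i, x ∈ R := by
    intro i x hx
    apply hRC
    rw [hC0]
    exact Finset.mem_insert_of_mem (Finset.mem_biUnion.2 ⟨i, Finset.mem_univ i, hx⟩)
  have hΔΔR : ∀ i, ∀ D ∈ ΔΔ i, D ∈ Δ := by
    intro i D hD
    rw [hΔ]
    exact Finset.mem_biUnion.2 ⟨i, Finset.mem_univ i, hD⟩
  obtain ⟨iR, hiR⟩ : ∃ iR : R →+* Subfield.closure (T : Set k), ∀ x, iR x = x.1 :=
    ⟨R.val.toRingHom, fun _ => rfl⟩
  have hiRinj : Function.Injective iR := by
    intro x y h
    rw [hiR, hiR] at h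
    exact Subtype.ext h
  have hres : ∀ D ∈ Δ, ∃ D' : Derivation ℤ R R, ∀ x, iR (D' x) = D (iR x) := fun D hD =>
    restrictD iR hiRinj D fun x => ⟨⟨D x.1, hRD D hD x.1 x.2⟩, by rw [hiR, hiR]⟩
  obtain ⟨κ, hκ⟩ : ∃ κ : R →+* k, κ = (Subfield.closure (T : Set k)).subtype.comp iR := ⟨_, rfl⟩
  have hκx : ∀ x, κ x = ((x.1 : Subfield.closure (T : Set k)) : k) := by
    intro x
    rw [hκ, RingHom.comp_apply, hiR]
    rfl
  have hκinj : Function.Injective κ := by
    rw [hκ]
    exact (Subtype.val_injective (p := fun x => x ∈ Subfield.closure (T : Set k))).comp hiRinj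
  have hchar : CharZero R := RingHom.charZero κ
  have hft : Algebra.FiniteType ℤ R := (Subalgebra.fg_iff_finiteType _).mp hRfg
  -- the map from `A`
  have hRadj : Algebra.adjoin ℤ (G : Set (Subfield.closure (T : Set k))) ≤ R :=
    Algebra.adjoin_le fun x hx => hRG x hx
  obtain ⟨iA, hiA⟩ := exists_hom (algebraMap A k) κ hκinj (fun x => by
    obtain ⟨y, hy1, hy2⟩ := hAl x x.2
    exact ⟨⟨y, hRadj hy1⟩, by rw [hκx]; exact hy2⟩)
  have hiRA : iR.comp iA = iE := by
    apply RingHom.ext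
    intro x
    apply (algebraMap (Subfield.closure (T : Set k)) k).injective
    rw [hiE, ← hiA, RingHom.comp_apply, hκ, RingHom.comp_apply]
    rfl
  have hfA : Algebra.FiniteType ℤ A := (Subalgebra.fg_iff_finiteType _).mp ⟨T, hTA⟩
  have hJ : IsJacobsonRing A := by
    have := Pool.Agent.Y162.HW.jac_int
    exact isJacobsonRing_of_finiteType (A := ℤ)
  have hcc : iA c * ⟨cE⁻¹, hcR⟩ = 1 := by
    apply hκinj
    rw [map_mul, map_one, hiA, hκx]
    change (c : k) * ((cE⁻¹ : Subfield.closure (T : Set k)) : k) = 1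
    rw [← hcE2, ← Subfield.coe_mul, mul_inv_cancel₀ hcE0]
    rfl
  -- the primes
  obtain ⟨M1, hM1⟩ := diff_prime R
  refine ⟨M1, fun p hpPr hp hpp => ?_⟩
  obtain ⟨P, hP, hpP, hDP⟩ := hM1 p hp hpp
  have hdom : IsDomain (R ⧸ P) := Ideal.Quotient.isDomain P
  have hcharP : CharP (R ⧸ P) p := charP_of_zero p hpp (by
    have := Ideal.Quotient.eq_zero_iff_mem.2 hpP
    rwa [map_natCast] at this)
  obtain ⟨M0, hM0⟩ : ∃ M0 : Ideal A, M0 = P.comap iA := ⟨_, rfl⟩
  have hM0p : M0.IsPrime := by rw [hM0]; exact Ideal.comap_isPrime iA P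
  let K := FractionRing (R ⧸ P)
  have hinj : Function.Injective (algebraMap (R ⧸ P) K) := IsFractionRing.injective _ _
  have hcharK : CharP K p := charP_of_injective_ringHom hinj p
  obtain ⟨f, hf⟩ : ∃ f : A →+* K, f = (algebraMap (R ⧸ P) K).comp ((Ideal.Quotient.mk P).comp iA) :=
    ⟨_, rfl⟩
  have hfM0 : ∀ x, f x = 0 ↔ x ∈ M0 := by
    intro x
    rw [hf, RingHom.comp_apply, RingHom.comp_apply, hM0, Ideal.mem_comap,
      map_eq_zero_iff _ hinj, Ideal.Quotient.eq_zero_iff_mem]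
  have hgen : ∀ i, ∀ e : Fin (r i) → K, (fun t => ∑ j, e j * f ((dA i).ω j t)) ∈
      img f (U i p) → e = 0 := by
    intro i e he
    rw [hf] at he
    refine hCΔ i R (R ⧸ P) K iR hiRinj (Ideal.Quotient.mk P) iA hiRA (U i p)
      (fun x hx => ⟨⟨x, hCCR i x hx⟩, hiR _⟩) (fun D hD => ?_) ?_ ?_ e he
    · obtain ⟨DR, hDR⟩ := hres D (hΔΔR i D hD)
      obtain ⟨DS, hDS⟩ := push_quot (Ideal.Quotient.mk P) Ideal.Quotient.mk_surjective DR (by
        intro x hx
        rw [Ideal.Quotient.eq_zero_iff_mem] at hx ⊢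
        exact hDP DR x hx)
      refine ⟨DR, DS, hDR, fun x => (hDS x).symm, fun v hv => ?_⟩
      have h1 := hhor i p hpPr K ((algebraMap (R ⧸ P) K).comp ((Ideal.Quotient.mk P).comp iA))
        (fun x => algebraMap (R ⧸ P) K (DS (Ideal.Quotient.mk P (iA x))))
        (fun x y => by simp only [map_add]) (fun x y => by
          simp only [map_mul, Derivation.leibniz, smul_eq_mul, map_add, RingHom.comp_apply]) v hv
      convert h1 using 1
      funext a
      rw [map_add, map_sum]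
      congr 1
      refine Finset.sum_congr rfl fun b _ => ?_
      rw [map_mul]
      congr 1
      unfold gam Dat.map
      rw [map_sum]
      refine Finset.sum_congr rfl fun l _ => ?_
      rw [map_mul]
      rfl
    · exact hcod i p hpPr K _
    · intro μ hμ1 hμ2
      exact hrel i p hpPr K _ μ hμ1 hμ2
  choose a ha1 ha2 using fun i => spread_out f (U i p) (dA i).ω (hgen i)
  have hprod : c * ∏ i, a i ∉ M0 := by
    intro hmem
    rcases hM0p.mem_or_mem hmem with h1 | h1
    · rw [hM0, Ideal.mem_comap] at h1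
      apply hP.ne_top
      rw [Ideal.eq_top_iff_one, ← hcc]
      exact P.mul_mem_right _ h1
    · obtain ⟨i, -, hi⟩ := (hM0p.prod_mem_iff).1 h1
      exact ha1 i ((hfM0 _).2 hi)
  have hjac : M0.jacobson = M0 := isJacobsonRing_iff_prime_eq.mp inferInstance M0 hM0p
  rw [← hjac, Ideal.jacobson, Submodule.mem_sInf] at hprod
  push Not at hprod
  obtain ⟨M, ⟨hM0M, hM⟩, hMa⟩ := hprod
  refine ⟨M, hM, hM0M ?_, fun h1 => hMa (Ideal.mul_mem_right _ M h1), ?_⟩
  · rw [hM0, Ideal.mem_comap, map_natCast]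
    exact hpP
  · intro i κ' _ g hg
    refine ha2 i κ' g (fun x hx => ?_) (fun h1 => ?_)
    · have h1 := hM0M ((hfM0 x).1 hx)
      rw [← hg] at h1
      exact h1
    · refine hMa (Ideal.mul_mem_left M _ ?_)
      exact Ideal.mem_of_dvd M (Finset.dvd_prod_of_mem a (Finset.mem_univ i)) (by
        rw [← hg]; exact h1)

end Pool.Agent.D0H58.AB
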