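import Pool.Agent.D0H61.AB.Stm

set_option autoImplicit false

/-! Module OVL of project AB (helper61): the overlap of two sets `Dv`. -/

namespace Pool.Agent.D0H58.AB

open MeasureTheory Finset Pool.Agent.D0H61.AB

/-- the integers in an interval of length `L` -/
theorem int_count (a L : ℝ) (hL : 0 ≤ L) :
    ∃ S : Finset ℤ, (∀ n : ℤ, a ≤ n → (n : ℝ) ≤ a + L → n ∈ S) ∧ (S.card : ℝ) ≤ L + 1 := by
  refine ⟨Finset.Icc ⌈a⌉ ⌊a + L⌋, fun n h1 h2 => ?_, ?_⟩
  · exact Finset.mem_Icc.2 ⟨Int.ceil_le.2 h1, Int.le_floor.2 h2⟩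
  · rw [Int.card_Icc]
    have h1 : ((⌊a + L⌋ : ℤ) : ℝ) ≤ a + L := Int.floor_le _
    have h2 : a ≤ ((⌈a⌉ : ℤ) : ℝ) := Int.le_ceil _
    rcases le_or_gt 0 (⌊a + L⌋ + 1 - ⌈a⌉) with h | h
    · have h3 : (((⌊a + L⌋ + 1 - ⌈a⌉).toNat : ℤ) : ℝ) = ((⌊a + L⌋ + 1 - ⌈a⌉ : ℤ) : ℝ) := by
        rw [Int.toNat_of_nonneg h]
      have h4 : (((⌊a + L⌋ + 1 - ⌈a⌉).toNat : ℕ) : ℝ) = ((⌊a + L⌋ + 1 - ⌈a⌉ : ℤ) : ℝ) := by
        rw [← h3]; exact (Int.cast_natCast _).symm
      rw [h4]
      push_cast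
      linarith
    · rw [Int.toNat_of_nonpos h.le]
      simp
      linarith

theorem vol_le (b : ℝ) (hb : 0 < b) (m : ℝ) :
    volume {α : ℝ | |α * b + m| ≤ 1} ≤ ENNReal.ofReal (2 / b) := by
  have h1 : {α : ℝ | |α * b + m| ≤ 1} ⊆ Set.Icc ((-1 - m) / b) ((1 - m) / b) := by
    intro α hα
    have hα' : |α * b + m| ≤ 1 := hα
    obtain ⟨h1, h2⟩ := abs_le.1 hα'
    constructor
    · rw [div_le_iff₀ hb]; linarith
    · rw [le_div_iff₀ hb]; linarith
  refine (measure_mono h1).trans ?_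
  rw [Real.volume_Icc]
  apply ENNReal.ofReal_le_ofReal
  rw [← sub_div]
  apply le_of_eq
  congr 1
  ring

theorem ovl_core (k : ℕ) (s x y : ℝ) (g u v : ℕ) (hk : 3 ≤ k) (hxy : x < y) (hg : 0 < g) (hu : 0 < u) (hv : 0 < v)
    (huv : IsCoprime (v : ℤ) (u : ℤ)) (hY : (2 : ℝ) ^ k ≤ (y - x) * g) :
    volume (Set.Icc x y ∩ Dv k s (g * u) ∩ Dv k s (g * v)) ≤
      ENNReal.ofReal (24 * (y - x) * ((1 / 2 ^ k) * (1 / (max u v : ℕ)) + (1 / 2 ^ k) ^ 2)) := by
  obtain ⟨p, q, hpq⟩ := huv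
  set K : ℝ := (2 : ℝ) ^ k with hK
  have hK8 : 8 ≤ K := by
    rw [hK]
    calc (8 : ℝ) = 2 ^ 3 := by norm_num
      _ ≤ 2 ^ k := pow_le_pow_right₀ (by norm_num) hk
  have hK0 : 0 < K := by linarith
  have hgR : (0 : ℝ) < g := by exact_mod_cast hg
  have huR : (0 : ℝ) < u := by exact_mod_cast hu
  have hvR : (0 : ℝ) < v := by exact_mod_cast hv
  have hu1 : (1 : ℝ) ≤ u := by exact_mod_cast hu
  set M : ℕ := max u v with hM
  have hMu : (u : ℝ) ≤ M := by exact_mod_cast le_max_left u v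
  have hMv : (v : ℝ) ≤ M := by exact_mod_cast le_max_right u v
  have hM0 : (0 : ℝ) < M := by linarith
  obtain ⟨SD, hSD, hSDc⟩ := int_count ((((v : ℝ) - u) * s - (u + v)) / K) (2 * (u + v) / K) (by positivity)
  have hL' : 0 ≤ ((y - x) * (g * u) + 2) / (K * u) := by
    have : 0 < y - x := by linarith
    positivity
  choose J hJ hJc using fun D : ℤ => int_count (((x * (g * u) + s - 1) / K - p * D) / u)
    (((y - x) * (g * u) + 2) / (K * u)) hL'
  have hcover : Set.Icc x y ∩ Dv k s (g * u) ∩ Dv k s (g * v) ⊆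
      ⋃ D ∈ SD, ⋃ j ∈ J D, {α : ℝ | |α * (g * u) + (s - K * (p * D + u * j))| ≤ 1 ∧
        |α * (g * v) + (s - K * (-(q * D) + v * j))| ≤ 1} := by
    rintro α ⟨⟨hα, c, hc⟩, c', hc'⟩
    push_cast at hc hc'
    rw [← hK] at hc hc'
    obtain ⟨c1, c2⟩ := abs_le.1 hc
    obtain ⟨c3, c4⟩ := abs_le.1 hc'
    -- the value of `D`
    set D : ℤ := v * c - u * c' with hD
    have hDR : (D : ℝ) = v * c - u * c' := by rw [hD]; push_cast; ring
    have hDmem : D ∈ SD := by
      apply hSD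
      · rw [div_le_iff₀ hK0, hDR]
        nlinarith
      · rw [← add_div, le_div_iff₀ hK0, hDR]
        nlinarith
    -- the value of `j`
    have hdvd : (u : ℤ) ∣ c - p * D := by
      have h1 : c - p * D = u * (q * c + p * c') := by
        rw [hD]
        linear_combination (-c) * hpq
      exact ⟨_, h1⟩
    obtain ⟨j, hj⟩ := hdvd
    have hcj : c = p * D + u * j := by linarith
    have hcj' : c' = -(q * D) + v * j := by
      have hu' : (u : ℤ) ≠ 0 := by exact_mod_cast hu.ne'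
      apply mul_left_cancel₀ hu'
      have h2 : (u : ℤ) * c' = v * c - D := by rw [hD]; ring
      rw [h2, hcj]
      linear_combination D * hpq
    have hcR : (c : ℝ) = p * D + u * j := by rw [hcj]; push_cast; ring
    have hcR' : (c' : ℝ) = -(q * D) + v * j := by rw [hcj']; push_cast; ring
    have hjmem : j ∈ J D := by
      apply hJ
      · rw [div_le_iff₀ huR, sub_le_iff_le_add, div_le_iff₀ hK0]
        have : K * (p * D + u * j) = K * c := by rw [hcR]
        have h3 : x * (g * u) ≤ α * (g * u) := mul_le_mul_of_nonneg_right hα.1 (by positivity)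
        nlinarith
      · have e1 : ((x * (g * u) + s - 1) / K - p * D) / u + ((y - x) * (g * u) + 2) / (K * u) =
            ((y * (g * u) + s + 1) / K - p * D) / u := by
          field_simp
          ring
        rw [e1, le_div_iff₀ huR, le_sub_iff_add_le, le_div_iff₀ hK0]
        have : K * (p * D + u * j) = K * c := by rw [hcR]
        have h3 : α * (g * u) ≤ y * (g * u) := mul_le_mul_of_nonneg_right hα.2 (by positivity)
        nlinarith
    refine Set.mem_iUnion₂.2 ⟨D, hDmem, Set.mem_iUnion₂.2 ⟨j, hjmem, ?_, ?_⟩⟩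
    · rw [← hcR]
      have : α * (g * u) + (s - K * c) = α * (g * u) + s - K * c := by ring
      rw [this]; exact hc
    · rw [← hcR']
      have : α * (g * v) + (s - K * c') = α * (g * v) + s - K * c' := by ring
      rw [this]; exact hc'
  have hpiece : ∀ D j : ℤ, volume {α : ℝ | |α * (g * u) + (s - K * (p * D + u * j))| ≤ 1 ∧
        |α * (g * v) + (s - K * (-(q * D) + v * j))| ≤ 1} ≤ ENNReal.ofReal (2 / (g * M)) := by
    intro D j
    rcases le_total u v with h | h
    · have e : (M : ℝ) = v := by rw [hM, max_eq_right h]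
      rw [e]
      refine (measure_mono ?_).trans (vol_le ((g : ℝ) * v) (by positivity) (s - K * (-(q * D) + v * j)))
      intro α hα
      exact hα.2
    · have e : (M : ℝ) = u := by rw [hM, max_eq_left h]
      rw [e]
      refine (measure_mono ?_).trans (vol_le ((g : ℝ) * u) (by positivity) (s - K * (p * D + u * j)))
      intro α hα
      exact hα.1
  set Y : ℝ := (y - x) * g / K with hYdef
  have hY1 : 1 ≤ Y := by rw [hYdef, le_div_iff₀ hK0]; linarith
  have hJ3 : ∀ D, ((J D).card : ℝ) ≤ 3 * Y := by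
    intro D
    refine (hJc D).trans ?_
    have e1 : ((y - x) * (g * u) + 2) / (K * u) = Y + 2 / (K * u) := by
      rw [hYdef]
      field_simp
    have e2 : 2 / (K * u) ≤ 1 := by
      rw [div_le_one (by positivity)]
      nlinarith
    rw [e1]
    linarith
  refine (measure_mono hcover).trans ?_
  have hsum : volume (⋃ D ∈ SD, ⋃ j ∈ J D, {α : ℝ | |α * (g * u) + (s - K * (p * D + u * j))| ≤ 1 ∧
        |α * (g * v) + (s - K * (-(q * D) + v * j))| ≤ 1}) ≤
      ∑ D ∈ SD, ENNReal.ofReal (3 * Y * (2 / (g * M))) := by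
    refine (measure_biUnion_finset_le SD _).trans (Finset.sum_le_sum fun D _ => ?_)
    refine (measure_biUnion_finset_le (J D) _).trans ?_
    refine (Finset.sum_le_sum fun j _ => hpiece D j).trans ?_
    rw [Finset.sum_const, nsmul_eq_mul, ENNReal.ofReal_mul (by linarith)]
    refine mul_le_mul_left ?_ _
    rw [← ENNReal.ofReal_natCast]
    exact ENNReal.ofReal_le_ofReal (hJ3 D)
  refine hsum.trans ?_
  rw [Finset.sum_const, nsmul_eq_mul, ← ENNReal.ofReal_natCast, ← ENNReal.ofReal_mul (by positivity)]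
  apply ENNReal.ofReal_le_ofReal
  have hYM : 0 ≤ 3 * Y * (2 / (g * M)) := by positivity
  refine (mul_le_mul_of_nonneg_right hSDc hYM).trans ?_
  have huvM : ((u : ℝ) + v) ≤ 2 * M := by linarith
  have h5 : 2 * ((u : ℝ) + v) / K + 1 ≤ 4 * M / K + 1 := by
    have : 2 * ((u : ℝ) + v) / K ≤ 4 * M / K := div_le_div_of_nonneg_right (by linarith) hK0.le
    linarith
  refine (mul_le_mul_of_nonneg_right h5 hYM).trans ?_
  have hyx : 0 < y - x := by linarith
  have e3 : (4 * M / K + 1) * (3 * Y * (2 / (g * M))) =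
      6 * (y - x) * ((1 / K) * (1 / M) + 4 * (1 / K) ^ 2) := by
    rw [hYdef]
    field_simp
    ring
  rw [e3]
  have h6 : 0 ≤ (1 / K) * (1 / (M : ℝ)) := by positivity
  have h7 : 0 ≤ (1 / K) ^ 2 := by positivity
  nlinarith [mul_nonneg hyx.le h6, mul_nonneg hyx.le h7]

theorem t_OVL : S_OVL := by
  refine ⟨24, by norm_num, ?_⟩
  intro k s x y b b' hk hxy hb hb' hY
  have hg : 0 < Nat.gcd b b' := Nat.gcd_pos_of_pos_left _ hb
  obtain ⟨u, hu⟩ := Nat.gcd_dvd_left b b'
  obtain ⟨v, hv⟩ := Nat.gcd_dvd_right b b'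
  set g := Nat.gcd b b' with hgdef
  have hu0 : 0 < u := Nat.pos_of_ne_zero (by rintro rfl; simp at hu; omega)
  have hv0 : 0 < v := Nat.pos_of_ne_zero (by rintro rfl; simp at hv; omega)
  have hcop : Nat.Coprime u v := by
    have h1 : Nat.gcd (g * u) (g * v) = g := by rw [← hu, ← hv]
    rw [Nat.gcd_mul_left] at h1
    have h2 : g * Nat.gcd u v = g * 1 := by rw [h1, mul_one]
    exact Nat.eq_of_mul_eq_mul_left hg h2
  have hco : IsCoprime (v : ℤ) (u : ℤ) := (Nat.isCoprime_iff_coprime.2 hcop).symm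
  have key := ovl_core k s x y g u v hk hxy hg hu0 hv0 hco hY
  rw [← hu, ← hv] at key
  refine key.trans (le_of_eq ?_)
  congr 4
  have hmax : max b b' = g * max u v := by
    rw [hu, hv]
    rcases le_total u v with h | h
    · rw [max_eq_right h, max_eq_right (Nat.mul_le_mul_left g h)]
    · rw [max_eq_left h, max_eq_left (Nat.mul_le_mul_left g h)]
  rw [hmax]
  have hgR : (g : ℝ) ≠ 0 := by exact_mod_cast hg.ne'
  have hM0 : ((max u v : ℕ) : ℝ) ≠ 0 := by
    have : 0 < max u v := lt_of_lt_of_le hu0 (le_max_left _ _)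
    exact_mod_cast this.ne'
  push_cast
  push_cast at hM0
  field_simp

end Pool.Agent.D0H58.AB
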