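import Pool.Agent.D0H58.OR.Gen

/-! Modules with a connection, tensors, functionals. -/

set_option autoImplicit false
set_option linter.unusedSectionVars false

namespace Pool.Agent.D0H58.AB

open Pool.Agent.D0H58.OR (pr deriv_prod swap_sum push push_apply pr_add pr_smul)

/-- The connection `d + ∑ l, C l * d (b l)` on `X ^ n`, and `r` vectors `ω`. -/
structure Dat (X : Type*) (L : Type*) (n r : ℕ) where
  /-- functions -/
  b : L → X
  /-- matrices -/
  C : L → Fin n → Fin n → X
  /-- vectors -/
  ω : Fin r → Fin n → X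

/-- the image of the data under a homomorphism -/
def Dat.map {X Y L : Type*} {n r : ℕ} (φ : X → Y) (d : Dat X L n r) : Dat Y L n r :=
  ⟨fun l => φ (d.b l), fun l i j => φ (d.C l i j), fun j t => φ (d.ω j t)⟩

section

variable {X L : Type*} [CommRing X] [Fintype L] {n r : ℕ}

/-- the matrix of the connection in the direction of a derivation -/
def gam (d : Dat X L n r) (D : Derivation ℤ X X) (i j : Fin n) : X := ∑ l, D (d.b l) * d.C l i j

/-- the connection on tensors -/
def nab (d : Dat X L n r) (D : Derivation ℤ X X) (T : (Fin r → Fin n) → X) : (Fin r → Fin n) → X :=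
  fun s => D (T s) + ∑ i, ∑ t, gam d D (s i) t * T (Function.update s i t)

/-- the dual connection on functionals -/
def dual (d : Dat X L n r) (D : Derivation ℤ X X) (u : Fin n → X) : Fin n → X :=
  fun t => D (u t) - ∑ x, u x * gam d D x t

/-- the tensor of the product of the vectors `ω j` -/
def vol (ω : Fin r → Fin n → X) (s : Fin r → Fin n) : X :=
  (Matrix.of fun i j : Fin r => ω j (s i)).det

lemma pr_vol (ω : Fin r → Fin n → X) (l : Fin r → Fin n → X) :
    pr l (vol ω) = (Matrix.of fun i j : Fin r => ∑ t, ω j t * l i t).det := by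
  classical
  have h1 : (Matrix.of fun i j : Fin r => ∑ t, ω j t * l i t) =
      fun i => ∑ t, l i t • (fun j : Fin r => ω j t) := by
    funext i j
    rw [Matrix.of_apply, Finset.sum_apply]
    refine Finset.sum_congr rfl fun s _ => ?_
    rw [Pi.smul_apply, smul_eq_mul, mul_comm]
  have h2 : (Matrix.of fun i j : Fin r => ∑ t, ω j t * l i t).det =
      (Matrix.detRowAlternating (R := X) (n := Fin r)).toMultilinearMap
        (fun i => ∑ t, l i t • (fun j : Fin r => ω j t)) := by
    rw [h1]; rfl
  rw [h2, MultilinearMap.map_sum]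
  unfold pr
  refine Finset.sum_congr rfl fun s _ => ?_
  rw [MultilinearMap.map_smul_univ, smul_eq_mul, mul_comm]
  rfl

/-- the derivative of the value -/
lemma pr_nab (d : Dat X L n r) (D : Derivation ℤ X X) (l : Fin r → Fin n → X)
    (T : (Fin r → Fin n) → X) :
    D (pr l T) = pr l (nab d D T) + ∑ i, pr (Function.update l i (dual d D (l i))) T := by
  classical
  have hupd : ∀ (i : Fin r) (s : Fin r → Fin n) (w : Fin n → X),
      ∏ j, Function.update l i w j (s j) = w (s i) * ∏ j ∈ Finset.univ.erase i, l j (s j) := by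
    intro i s w
    rw [← Finset.mul_prod_erase _ _ (Finset.mem_univ i), Function.update_self]
    congr 1
    refine Finset.prod_congr rfl fun j hj => ?_
    rw [Function.update_of_ne (Finset.ne_of_mem_erase hj)]
  have h1 : D (pr l T) = ∑ s, D (T s) * ∏ j, l j (s j) +
      ∑ i, ∑ s : Fin r → Fin n, T s * (∏ j ∈ Finset.univ.erase i, l j (s j)) * D (l i (s i)) := by
    unfold pr
    rw [map_sum, Finset.sum_comm, ← Finset.sum_add_distrib]
    refine Finset.sum_congr rfl fun s _ => ?_
    rw [Derivation.leibniz, deriv_prod, smul_eq_mul, smul_eq_mul, add_comm, Finset.mul_sum]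
    congr 1
    · ring
    · refine Finset.sum_congr rfl fun i _ => ?_
      ring
  have h2 : pr l (nab d D T) = ∑ s, D (T s) * ∏ j, l j (s j) +
      ∑ i, ∑ s : Fin r → Fin n, ∑ t, gam d D t (s i) * T s * (l i t *
        ∏ j ∈ Finset.univ.erase i, l j (s j)) := by
    have h3 : pr l (nab d D T) = ∑ s, D (T s) * ∏ j, l j (s j) +
        ∑ i, ∑ s : Fin r → Fin n, ∑ t, gam d D (s i) t * T (Function.update s i t) *
          ∏ j, l j (s j) := by
      unfold pr nab
      rw [Finset.sum_comm, ← Finset.sum_add_distrib]
      refine Finset.sum_congr rfl fun s _ => ?_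
      rw [add_mul, Finset.sum_mul]
      congr 1
      refine Finset.sum_congr rfl fun i _ => ?_
      rw [Finset.sum_mul]
    rw [h3]
    congr 1
    refine Finset.sum_congr rfl fun i _ => ?_
    rw [swap_sum i]
    refine Finset.sum_congr rfl fun s _ => Finset.sum_congr rfl fun t _ => ?_
    rw [Function.update_self, Function.update_idem, Function.update_eq_self]
    congr 1
    rw [← Finset.mul_prod_erase _ _ (Finset.mem_univ i), Function.update_self]
    congr 1
    refine Finset.prod_congr rfl fun j hj => ?_
    rw [Function.update_of_ne (Finset.ne_of_mem_erase hj)]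
  rw [h1, h2, add_assoc, ← Finset.sum_add_distrib]
  congr 1
  refine Finset.sum_congr rfl fun i _ => ?_
  unfold pr
  rw [← Finset.sum_add_distrib]
  refine Finset.sum_congr rfl fun s _ => ?_
  rw [hupd]
  unfold dual
  rw [sub_mul, mul_sub, Finset.sum_mul, Finset.mul_sum, add_comm, sub_add]
  have e1 : ∑ t, T s * (l i t * gam d D t (s i) * ∏ j ∈ Finset.univ.erase i, l j (s j)) -
      ∑ t, gam d D t (s i) * T s * (l i t * ∏ j ∈ Finset.univ.erase i, l j (s j)) = 0 := by
    rw [sub_eq_zero]
    refine Finset.sum_congr rfl fun t _ => ?_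
    ring
  rw [e1]
  ring

lemma pr_update_zero (l : Fin r → Fin n → X) (T : (Fin r → Fin n) → X) : pr l (0 * T) = 0 := by
  unfold pr
  simp

lemma nab_add (d : Dat X L n r) (D : Derivation ℤ X X) (T T' : (Fin r → Fin n) → X) :
    nab d D (T + T') = nab d D T + nab d D T' := by
  funext s
  simp only [nab, Pi.add_apply, map_add, mul_add, Finset.sum_add_distrib]
  ring

lemma nab_zero (d : Dat X L n r) (D : Derivation ℤ X X) : nab d D 0 = 0 := by
  funext s
  simp [nab]

lemma nab_smul (d : Dat X L n r) (D : Derivation ℤ X X) (c : X) (T : (Fin r → Fin n) → X) :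
    nab d D (c • T) = D c • T + c • nab d D T := by
  funext s
  simp only [nab, Pi.add_apply, Pi.smul_apply, smul_eq_mul, Derivation.leibniz]
  have h : ∑ i, ∑ t, gam d D (s i) t * (c * T (Function.update s i t)) =
      c * ∑ i, ∑ t, gam d D (s i) t * T (Function.update s i t) := by
    rw [Finset.mul_sum]
    refine Finset.sum_congr rfl fun i _ => ?_
    rw [Finset.mul_sum]
    refine Finset.sum_congr rfl fun t _ => ?_
    ring
  rw [h]
  ring

end

lemma gam_map {X Y L : Type*} [CommRing X] [CommRing Y] [Fintype L] {n r : ℕ} (φ : X →+* Y)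
    (d : Dat X L n r) (D : Derivation ℤ X X) (D' : Derivation ℤ Y Y) (h : ∀ x, φ (D x) = D' (φ x))
    (i j : Fin n) : φ (gam d D i j) = gam (d.map φ) D' i j := by
  unfold gam Dat.map
  rw [map_sum]
  refine Finset.sum_congr rfl fun l _ => ?_
  rw [map_mul, h]

lemma nab_map {X Y L : Type*} [CommRing X] [CommRing Y] [Fintype L] {n r : ℕ} (φ : X →+* Y)
    (d : Dat X L n r) (D : Derivation ℤ X X) (D' : Derivation ℤ Y Y) (h : ∀ x, φ (D x) = D' (φ x))
    (T : (Fin r → Fin n) → X) (s : Fin r → Fin n) :
    φ (nab d D T s) = nab (d.map φ) D' (fun s => φ (T s)) s := by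
  unfold nab
  rw [map_add, map_sum, h]
  congr 1
  refine Finset.sum_congr rfl fun i _ => ?_
  rw [map_sum]
  refine Finset.sum_congr rfl fun t _ => ?_
  rw [map_mul, gam_map φ d D D' h]

lemma vol_map {X Y : Type*} [CommRing X] [CommRing Y] {n r : ℕ} (φ : X →+* Y)
    (ω : Fin r → Fin n → X) (s : Fin r → Fin n) : φ (vol ω s) = vol (fun j t => φ (ω j t)) s := by
  unfold vol
  rw [RingHom.map_det]
  congr 1

/-- The tensors generated by the product of the vectors `ω j`. -/
inductive Gen {k L : Type*} [Field k] [Fintype L] {n r : ℕ} (d : Dat k L n r) :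
    ((Fin r → Fin n) → k) → Prop
  | vol : Gen d (vol d.ω)
  | add (T T' : (Fin r → Fin n) → k) : Gen d T → Gen d T' → Gen d (T + T')
  | smul (c : k) (T : (Fin r → Fin n) → k) : Gen d T → Gen d (c • T)
  | nab (δ : Derivation ℤ k k) (T : (Fin r → Fin n) → k) : Gen d T → Gen d (nab d δ T)

section span

variable {E k L : Type*} [Field E] [Field k] [Algebra E k] [Fintype L] {n r : ℕ}

/-- The tensors over `k` are combinations of the tensors over `E`. -/
lemma gen_span (d : Dat E L n r) (T : (Fin r → Fin n) → k)
    (hT : Gen (d.map (algebraMap E k)) T) :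
    T ∈ Submodule.span k {T' | ∃ T₀ : (Fin r → Fin n) → E, Gen d T₀ ∧
      T' = fun s => algebraMap E k (T₀ s)} := by
  classical
  obtain ⟨W, hW⟩ : ∃ W : Submodule k ((Fin r → Fin n) → k),
    W = Submodule.span k {T' | ∃ T₀ : (Fin r → Fin n) → E, Gen d T₀ ∧
      T' = fun s => algebraMap E k (T₀ s)} := ⟨_, rfl⟩
  rw [← hW]
  have hmem : ∀ T₀ : (Fin r → Fin n) → E, Gen d T₀ → (fun s => algebraMap E k (T₀ s)) ∈ W := by
    intro T₀ h
    rw [hW]
    exact Submodule.subset_span ⟨T₀, h, rfl⟩
  -- functionals
  have hfun : ∀ x : (Fin r → Fin n) → k, (∀ ℓ : k →ₗ[E] E, Gen d fun s => ℓ (x s)) → x ∈ W := by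
    intro x hx
    let b := Module.Basis.ofVectorSpace E k
    set J : Finset _ := Finset.univ.biUnion fun s => (b.repr (x s)).support with hJ
    have h1 : x = ∑ j ∈ J, b j • fun s => algebraMap E k (b.coord j (x s)) := by
      funext s
      rw [Finset.sum_apply]
      have h2 := b.linearCombination_repr (x s)
      rw [Finsupp.linearCombination_apply, Finsupp.sum_of_support_subset (s := J)] at h2
      · conv_lhs => rw [← h2]
        refine Finset.sum_congr rfl fun j _ => ?_
        rw [Algebra.smul_def, Pi.smul_apply, smul_eq_mul, mul_comm]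
        rfl
      · exact Finset.subset_biUnion_of_mem (fun s => (b.repr (x s)).support) (Finset.mem_univ s)
      · intro j _
        rw [zero_smul]
    rw [h1]
    exact Submodule.sum_mem _ fun j _ => W.smul_mem _ (hmem _ (hx _))
  have hgen : ∀ (δ : Derivation ℤ k k) (T₀ : (Fin r → Fin n) → E), Gen d T₀ →
      nab (d.map (algebraMap E k)) δ (fun s => algebraMap E k (T₀ s)) ∈ W := by
    intro δ T₀ h
    apply hfun
    intro ℓ
    have h1 : (fun s => ℓ (nab (d.map (algebraMap E k)) δ
        (fun s => algebraMap E k (T₀ s)) s)) = nab d (push δ ℓ) T₀ := by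
      funext s
      have e1 : nab (d.map (algebraMap E k)) δ (fun s => algebraMap E k (T₀ s)) s =
          δ (algebraMap E k (T₀ s)) + ∑ i, ∑ t, ∑ l, (d.C l (s i) t *
            T₀ (Function.update s i t)) • δ (algebraMap E k (d.b l)) := by
        unfold nab gam Dat.map
        congr 1
        refine Finset.sum_congr rfl fun i _ => Finset.sum_congr rfl fun t _ => ?_
        rw [Finset.sum_mul]
        refine Finset.sum_congr rfl fun l _ => ?_
        rw [Algebra.smul_def, map_mul]
        ring
      rw [e1, map_add, map_sum]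
      simp only [nab, push_apply, gam]
      congr 1
      refine Finset.sum_congr rfl fun i _ => ?_
      rw [map_sum]
      refine Finset.sum_congr rfl fun t _ => ?_
      rw [map_sum, Finset.sum_mul]
      refine Finset.sum_congr rfl fun l _ => ?_
      rw [map_smul, smul_eq_mul]
      ring
    rw [h1]
    exact Gen.nab _ _ h
  have hstab : ∀ (δ : Derivation ℤ k k), ∀ x ∈ W, nab (d.map (algebraMap E k)) δ x ∈ W := by
    intro δ x hx
    rw [hW] at hx
    induction hx using Submodule.span_induction with
    | mem x hx =>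
      obtain ⟨T₀, h, rfl⟩ := hx
      exact hgen δ T₀ h
    | zero => rw [nab_zero]; exact W.zero_mem
    | add x y _ _ hx hy => rw [nab_add]; exact W.add_mem hx hy
    | smul c x hx' hx =>
      rw [nab_smul]
      exact W.add_mem (W.smul_mem _ (hW ▸ hx')) (W.smul_mem _ hx)
  induction hT with
  | vol =>
    have := hmem _ Gen.vol
    have e : (fun s => algebraMap E k (vol d.ω s)) = vol (d.map (algebraMap E k)).ω := by
      funext s
      exact vol_map _ _ s
    rwa [e] at this
  | add T T' _ _ h1 h2 => exact W.add_mem h1 h2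
  | smul c T _ h => exact W.smul_mem _ h
  | nab δ T _ h => exact hstab δ T h

/-- a family of functionals over `k` which kills the tensors over `E` kills the tensors over `k` -/
lemma pr_gen (d : Dat E L n r) (μ : Fin r → Fin n → k)
    (h : ∀ T₀ : (Fin r → Fin n) → E, Gen d T₀ → pr μ (fun s => algebraMap E k (T₀ s)) = 0)
    (T : (Fin r → Fin n) → k) (hT : Gen (d.map (algebraMap E k)) T) : pr μ T = 0 := by
  have h1 := gen_span d T hT
  clear hT
  induction h1 using Submodule.span_induction with
  | mem x hx =>
    obtain ⟨T₀, h2, rfl⟩ := hx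
    exact h T₀ h2
  | zero => unfold pr; simp
  | add x y _ _ hx hy => rw [pr_add, hx, hy, add_zero]
  | smul c x _ hx => rw [pr_smul, hx, mul_zero]

end span

end Pool.Agent.D0H58.AB
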